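import Pool.Agent.U398.RL.Stm2

set_option autoImplicit false

/-!
# Project RL (MP_f1d0b6_nt): job GenusOddReal, part 1: forms over a ring, splitting off a vector
-/

namespace Pool.Agent.U388.RL.Gen

open Pool.Agent.Y813.RL Pool.Agent.U398.RL Matrix

section form

variable {R : Type*} [CommRing R] {ι κ lam : Type*} [Fintype ι] [Fintype κ] [Fintype lam]

/-- the bilinear form of a matrix -/
def bm (B : Matrix ι ι R) (x y : ι → R) : R := x ⬝ᵥ (B *ᵥ y)

variable (B : Matrix ι ι R)

theorem bm_add_left (x y z : ι → R) : bm B (x + y) z = bm B x z + bm B y z := by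
  simp [bm, add_dotProduct]

theorem bm_add_right (x y z : ι → R) : bm B x (y + z) = bm B x y + bm B x z := by
  simp [bm, mulVec_add, dotProduct_add]

theorem bm_smul_left (c : R) (x z : ι → R) : bm B (c • x) z = c * bm B x z := by
  simp [bm, smul_dotProduct]

theorem bm_smul_right (c : R) (x z : ι → R) : bm B x (c • z) = c * bm B x z := by
  simp [bm, mulVec_smul, dotProduct_smul]

theorem bm_sub_right (x y z : ι → R) : bm B x (y - z) = bm B x y - bm B x z := by
  simp [bm, mulVec_sub, dotProduct_sub]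

theorem bm_sub_left (x y z : ι → R) : bm B (x - y) z = bm B x z - bm B y z := by
  simp [bm, sub_dotProduct]

theorem bm_zero_left (z : ι → R) : bm B 0 z = 0 := by simp [bm]

theorem bm_zero_right (z : ι → R) : bm B z 0 = 0 := by simp [bm]

theorem bm_sum_left {α : Type*} (s : Finset α) (f : α → ι → R) (z : ι → R) :
    bm B (∑ i ∈ s, f i) z = ∑ i ∈ s, bm B (f i) z := by
  simp [bm, sum_dotProduct]

theorem bm_sum_right {α : Type*} (s : Finset α) (f : α → ι → R) (z : ι → R) :
    bm B z (∑ i ∈ s, f i) = ∑ i ∈ s, bm B z (f i) := by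
  induction s using Finset.cons_induction with
  | empty => simp [bm]
  | cons a s ha ih => rw [Finset.sum_cons, Finset.sum_cons, bm_add_right, ih]

theorem bm_single [DecidableEq ι] (i j : ι) : bm B (Pi.single i 1) (Pi.single j 1) = B i j := by
  simp [bm]

/-- symmetric -/
def Sy : Prop := ∀ x y, bm B x y = bm B y x

/-- isometry of the lattices given by two matrices -/
def Cong (B : Matrix ι ι R) (C : Matrix κ κ R) : Prop :=
  ∃ e : (ι → R) ≃ₗ[R] (κ → R), ∀ x y, bm C (e x) (e y) = bm B x y

theorem Cong.refl : Cong B B := ⟨LinearEquiv.refl _ _, fun _ _ => rfl⟩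

variable {B}

theorem Cong.symm {C : Matrix κ κ R} (h : Cong B C) : Cong C B := by
  obtain ⟨e, he⟩ := h
  exact ⟨e.symm, fun x y => by rw [← he]; simp⟩

theorem Cong.trans {C : Matrix κ κ R} {D : Matrix lam lam R} (h : Cong B C)
    (h' : Cong C D) : Cong B D := by
  obtain ⟨e, he⟩ := h
  obtain ⟨f, hf⟩ := h'
  exact ⟨e.trans f, fun x y => by simp [he, hf]⟩

theorem bm_fromBlocks (B : Matrix ι ι R) (C : Matrix κ κ R) (x x' : ι → R)
    (y y' : κ → R) :
    bm (fromBlocks B 0 0 C) (Sum.elim x y) (Sum.elim x' y') = bm B x x' + bm C y y' := by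
  simp [bm, fromBlocks_mulVec]

theorem Cong.smul {C : Matrix κ κ R} (h : Cong B C) (c : R) : Cong (c • B) (c • C) := by
  obtain ⟨e, he⟩ := h
  refine ⟨e, fun x y => ?_⟩
  have := he x y
  simp only [bm, smul_mulVec, dotProduct_smul] at this ⊢
  rw [this]

theorem Cong.sum {ι' κ' : Type*} [Fintype ι'] [Fintype κ'] {C : Matrix κ κ R}
    {B' : Matrix ι' ι' R} {C' : Matrix κ' κ' R} (h : Cong B C) (h' : Cong B' C') :
    Cong (fromBlocks B 0 0 B') (fromBlocks C 0 0 C') := by
  obtain ⟨e, he⟩ := h
  obtain ⟨f, hf⟩ := h'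
  refine ⟨(LinearEquiv.sumArrowLequivProdArrow ι ι' R R).trans
    ((LinearEquiv.prodCongr e f).trans
      (LinearEquiv.sumArrowLequivProdArrow κ κ' R R).symm), fun x y => ?_⟩
  have hx : ∀ x : ι ⊕ ι' → R, ((LinearEquiv.sumArrowLequivProdArrow ι ι' R R).trans
    ((LinearEquiv.prodCongr e f).trans
      (LinearEquiv.sumArrowLequivProdArrow κ κ' R R).symm)) x =
      Sum.elim (e (x ∘ Sum.inl)) (f (x ∘ Sum.inr)) := by
    intro x
    funext i
    rcases i with i | i
    · rfl
    · rfl
  rw [hx, hx, bm_fromBlocks, he, hf]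
  conv_rhs => rw [← Sum.elim_comp_inl_inr x, ← Sum.elim_comp_inl_inr y]
  rw [bm_fromBlocks]

theorem Cong.sy {C : Matrix κ κ R} (h : Cong B C) (hB : Sy B) : Sy C := by
  obtain ⟨e, he⟩ := h.symm
  intro x y
  rw [← he, ← he, hB]

theorem sy_right {P : Matrix ι ι R} {C : Matrix κ κ R} (h : Sy (fromBlocks P 0 0 C)) :
    Sy C := by
  intro x y
  have := h (Sum.elim 0 x) (Sum.elim 0 y)
  rw [bm_fromBlocks, bm_fromBlocks] at this
  simpa [bm_zero_left] using this

/-- determinants of isometric lattices -/
theorem Cong.det [DecidableEq ι] [DecidableEq κ] {C : Matrix κ κ R} (h : Cong B C)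
    (hc : Fintype.card ι = Fintype.card κ) : ∃ u : R, IsUnit u ∧ B.det = C.det * u ^ 2 := by
  obtain ⟨e, he⟩ := h
  let σ : ι ≃ κ := Fintype.equivOfCardEq hc
  let T : (ι → R) ≃ₗ[R] (ι → R) := e.trans (LinearEquiv.funCongrLeft R R σ)
  let M : Matrix ι ι R := LinearMap.toMatrix' (T : (ι → R) →ₗ[R] (ι → R))
  have hM : ∀ x, M *ᵥ x = (e x) ∘ σ := by
    intro x
    have : M *ᵥ x = (T : (ι → R) →ₗ[R] (ι → R)) x := by
      simp only [M]
      rw [LinearMap.toMatrix'_mulVec]
    rw [this]
    rfl
  have hsub : ∀ x y : κ → R, bm (C.submatrix σ σ) (x ∘ σ) (y ∘ σ) = bm C x y := by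
    intro x y
    simp only [bm, dotProduct, mulVec, submatrix_apply, Function.comp]
    rw [← Equiv.sum_comp σ]
    refine Finset.sum_congr rfl fun i _ => ?_
    congr 1
    rw [← Equiv.sum_comp σ]
  have key : Mᵀ * (C.submatrix σ σ) * M = B := by
    ext i j
    have h1 := he (Pi.single i 1) (Pi.single j 1)
    rw [bm_single, ← hsub, ← hM, ← hM] at h1
    rw [← h1]
    simp only [bm, mulVec_single_one]
    rw [Matrix.mul_apply, ]
    simp only [dotProduct, mulVec, Matrix.mul_apply, transpose_apply, col_apply, Finset.sum_mul,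
      Finset.mul_sum]
    rw [Finset.sum_comm]
    refine Finset.sum_congr rfl fun a _ => Finset.sum_congr rfl fun b _ => by ring
  refine ⟨M.det, ?_, ?_⟩
  · have h2 : IsUnit (LinearMap.det (T : (ι → R) →ₗ[R] (ι → R))) :=
      LinearEquiv.isUnit_det' T
    rwa [← LinearMap.det_toMatrix'] at h2
  · rw [← key, det_mul, det_mul, det_transpose, det_submatrix_equiv_self]
    ring

end form

section split

variable {R : Type*} [CommRing R] {ι : Type*} [Fintype ι]

theorem bm_eq_sum (C : Matrix ι ι R) (x y : ι → R) :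
    bm C x y = ∑ i, ∑ j, x i * C i j * y j := by
  simp only [bm, dotProduct, mulVec, Finset.mul_sum, mul_assoc]

theorem bm_sum_smul (B : Matrix ι ι R) {α : Type*} [Fintype α] (x y : α → R)
    (v w : α → ι → R) :
    bm B (∑ i, x i • v i) (∑ j, y j • w j) = ∑ i, ∑ j, x i * bm B (v i) (w j) * y j := by
  rw [bm_sum_left]
  refine Finset.sum_congr rfl fun i _ => ?_
  rw [bm_sum_right]
  refine Finset.sum_congr rfl fun j _ => ?_
  rw [bm_smul_left, bm_smul_right]
  ring

/-- splitting off a vector of unit norm -/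
theorem split [IsDomain R] [IsPrincipalIdealRing R] {B : Matrix ι ι R} (hB : Sy B) {n : ℕ}
    (hn : Fintype.card ι = n + 1) (e : ι → R) (a : R) (ha : bm B e e = a) (hD : IsUnit a) :
    ∃ B' : Matrix (Fin n) (Fin n) R,
      Cong B (fromBlocks (Matrix.of fun (_ _ : Fin 1) => a) 0 0 B') := by
  classical
  obtain ⟨d, hd⟩ := hD.exists_right_inv
  let φ : (ι → R) →ₗ[R] R :=
    { toFun := fun v => d * bm B e v
      map_add' := fun v w => by rw [bm_add_right]; ring
      map_smul' := fun c v => by
        rw [bm_smul_right, smul_eq_mul, RingHom.id_apply]; ring }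
  have hφ : ∀ v, φ v = d * bm B e v := fun v => rfl
  have φe : φ e = 1 := by rw [hφ, ha, ← hd]; ring
  let K : Submodule R (ι → R) := LinearMap.ker φ
  have hK : ∀ k : K, φ k = 0 := fun k => k.2
  let E : (ι → R) ≃ₗ[R] (Fin 1 → R) × K :=
    { toFun := fun v => (fun _ => φ v, ⟨v - φ v • e, by
        show φ (v - φ v • e) = 0
        simp only [map_sub, map_smul, φe, smul_eq_mul]; ring⟩)
      map_add' := by
        intro v w
        refine Prod.ext ?_ (Subtype.ext ?_)
        · funext i; simp
        · simp only [map_add, add_smul, Prod.snd_add, Submodule.coe_add]; abel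
      map_smul' := by
        intro a v
        refine Prod.ext ?_ (Subtype.ext ?_)
        · funext i; simp
        · simp only [map_smul, smul_eq_mul, mul_smul, Prod.smul_snd, RingHom.id_apply,
            Submodule.coe_smul, smul_sub]
      invFun := fun w => w.1 0 • e + (w.2 : ι → R)
      left_inv := by
        intro v
        simp
      right_inv := by
        intro w
        refine Prod.ext ?_ (Subtype.ext ?_)
        · funext i
          have : i = 0 := Subsingleton.elim _ _
          subst this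
          simp [φe, (hK w.2)]
        · simp only [map_add, map_smul, φe, (hK w.2), smul_eq_mul]
          simp only [mul_one, add_zero]
          abel }
  have hrank : Module.finrank R K = n := by
    have h := E.finrank_eq
    rw [Module.finrank_prod, Module.finrank_fintype_fun_eq_card,
      Module.finrank_fintype_fun_eq_card, hn, Fintype.card_fin] at h
    omega
  let bK : Module.Basis (Fin n) R K := Module.finBasisOfFinrankEq R K hrank
  let B' : Matrix (Fin n) (Fin n) R := Matrix.of fun i j => bm B (bK i) (bK j)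
  have hsum : ∀ k : K, (k : ι → R) = ∑ i, bK.repr k i • ((bK i : K) : ι → R) := by
    intro k
    have := congrArg K.subtype (bK.sum_repr k)
    rw [map_sum] at this
    simpa using this.symm
  have hB' : ∀ k k' : K, bm B' (bK.repr k) (bK.repr k') = bm B k k' := by
    intro k k'
    rw [hsum k, hsum k', bm_sum_smul, bm_eq_sum]
    rfl
  let F : (ι → R) ≃ₗ[R] (Fin 1 ⊕ Fin n → R) :=
    E.trans ((LinearEquiv.prodCongr (LinearEquiv.refl R (Fin 1 → R)) bK.equivFun).trans
      (LinearEquiv.sumArrowLequivProdArrow (Fin 1) (Fin n) R R).symm)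
  have hF : ∀ v, F v = Sum.elim (fun _ => φ v) (bK.repr (E v).2) := by
    intro v
    funext i
    rcases i with i | i <;> rfl
  refine ⟨B', F, fun x y => ?_⟩
  rw [hF, hF, bm_fromBlocks, hB']
  have ex : x = φ x • e + ((E x).2 : ι → R) := by
    have : ((E x).2 : ι → R) = x - φ x • e := rfl
    rw [this]; abel
  have ey : y = φ y • e + ((E y).2 : ι → R) := by
    have : ((E y).2 : ι → R) = y - φ y • e := rfl
    rw [this]; abel
  have k1 : ∀ k : K, bm B e k = 0 := fun k => by
    have h := hK k
    rw [hφ] at h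
    have : a * (d * bm B e k) = bm B e k := by rw [← mul_assoc, hd, one_mul]
    rw [← this, h, mul_zero]
  have k3 : ∀ k : K, bm B k e = 0 := fun k => by rw [hB, k1]
  conv_rhs => rw [ex, ey]
  simp only [bm_add_left, bm_add_right, bm_smul_left, bm_smul_right, k1, k3, ha]
  simp [bm, Matrix.mulVec, dotProduct]
  ring

/-- a block of size one with entry `a` and a unimodular rest -/
theorem Cong.det_block [DecidableEq ι] {B : Matrix ι ι R} {n : ℕ} {a : R}
    {B' : Matrix (Fin n) (Fin n) R}
    (h : Cong B (fromBlocks (Matrix.of fun (_ _ : Fin 1) => a) 0 0 B'))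
    (hn : Fintype.card ι = n + 1) :
    ∃ u : R, IsUnit u ∧ B.det = a * B'.det * u ^ 2 := by
  obtain ⟨u, hu, h⟩ := h.det (by simp [hn, add_comm])
  rw [det_fromBlocks_zero₂₁] at h
  refine ⟨u, hu, ?_⟩
  rw [h]
  simp

end split

end Pool.Agent.U388.RL.Gen
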