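import Pool.Agent.U388.RL.Gen1

set_option autoImplicit false

/-!
# Project RL (MP_f1d0b6_nt): jobs GenusOdd and GenusReal
-/

namespace Pool.Agent.U388.RL.Gen

open Pool.Agent.Y813.RL Pool.Agent.U398.RL Matrix

section odd

variable {p : ℕ} [Fact p.Prime]

theorem unit_iff (x : ℤ_[p]) : IsUnit x ↔ ¬ (p : ℤ_[p]) ∣ x := by
  rw [PadicInt.isUnit_iff]
  have h1 : ‖x‖ < 1 ↔ (p : ℤ_[p]) ∣ x := PadicInt.norm_lt_one_iff_dvd x
  have h2 := PadicInt.norm_le_one x
  rw [← h1]
  constructor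
  · intro h; rw [h]; exact lt_irrefl _
  · intro h; exact le_antisymm h2 (not_lt.mp h)

theorem unit_iff_zmod (x : ℤ_[p]) : IsUnit x ↔ PadicInt.toZMod x ≠ 0 := by
  rw [unit_iff, not_iff_not]
  have : PadicInt.toZMod x = 0 ↔ x ∈ RingHom.ker (PadicInt.toZMod (p := p)) := Iff.rfl
  rw [this, PadicInt.ker_toZMod, PadicInt.maximalIdeal_eq_span_p, Ideal.mem_span_singleton]

theorem unit_two (hp : p ≠ 2) : IsUnit (2 : ℤ_[p]) := by
  rw [unit_iff_zmod, map_ofNat]
  intro h
  have : ((2 : ℕ) : ZMod p) = 0 := by exact_mod_cast h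
  rw [ZMod.natCast_eq_zero_iff] at this
  exact hp ((Nat.prime_dvd_prime_iff_eq (Fact.out) Nat.prime_two).mp this)

/-- an element that is 1 mod p is a square (p odd) -/
theorem sq_of_one (hp : p ≠ 2) (a : ℤ_[p]) (ha : PadicInt.toZMod a = 1) : ∃ w, w ^ 2 = a := by
  let F : Polynomial ℤ_[p] := Polynomial.X ^ 2 - Polynomial.C a
  have h3 : F.derivative.aeval (1 : ℤ_[p]) = 2 := by
    simp [F]
    norm_num
  have h4 : F.aeval (1 : ℤ_[p]) = 1 - a := by
    simp [F]
  have h5 : ‖(2 : ℤ_[p])‖ = 1 := PadicInt.isUnit_iff.mp (unit_two hp)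
  have h6 : ‖1 - a‖ < 1 := by
    rw [PadicInt.norm_lt_one_iff_dvd]
    by_contra h
    rw [← unit_iff, unit_iff_zmod, map_sub, map_one, ha, sub_self] at h
    exact h rfl
  obtain ⟨z, hz, -⟩ := hensels_lemma (p := p) (F := F) (a := (1 : ℤ_[p]))
    (by rw [h3, h4, h5]; simpa using h6)
  refine ⟨z, ?_⟩
  have : z ^ 2 - a = 0 := by simpa [F] using hz
  linear_combination this

/-- a unimodular form has a vector of unit norm -/
theorem exists_unit_norm (hp : p ≠ 2) {ι : Type*} [Fintype ι] [DecidableEq ι] [Nonempty ι]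
    {B : Matrix ι ι ℤ_[p]} (hB : Sy B) (hdet : IsUnit B.det) : ∃ x, IsUnit (bm B x x) := by
  obtain ⟨i⟩ := ‹Nonempty ι›
  by_contra hno
  push Not at hno
  have hz : ∀ x, PadicInt.toZMod (bm B x x) = 0 := by
    intro x
    by_contra h
    exact hno x ((unit_iff_zmod _).mpr h)
  let x : ι → ℤ_[p] := Pi.single i 1
  let y : ι → ℤ_[p] := B⁻¹ *ᵥ Pi.single i 1
  have hxy : bm B x y = 1 := by
    show x ⬝ᵥ (B *ᵥ (B⁻¹ *ᵥ Pi.single i 1)) = 1
    rw [mulVec_mulVec, mul_nonsing_inv B hdet, one_mulVec]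
    simp [x]
  have h1 := hz (x + y)
  rw [bm_add_left, bm_add_right, bm_add_right, hB y x, hxy, map_add, map_add, map_add, hz x,
    hz y, map_one] at h1
  have h2 := (unit_iff_zmod _).mp (unit_two (p := p) hp)
  rw [map_ofNat] at h2
  apply h2
  linear_combination h1

/-- over the field: a s^2 + c t^2 = 1 -/
theorem rep_one_zmod (hp : p ≠ 2) (a c : ZMod p) (ha : a ≠ 0) (hc : c ≠ 0) :
    ∃ s t : ZMod p, a * s ^ 2 + c * t ^ 2 = 1 := by
  have hodd : Fintype.card (ZMod p) % 2 = 1 := by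
    rw [ZMod.card]
    exact Nat.odd_iff.mp ((Fact.out : p.Prime).odd_of_ne_two hp)
  obtain ⟨s, t, h⟩ := FiniteField.exists_root_sum_quadratic (R := ZMod p)
    (f := Polynomial.C a * Polynomial.X ^ 2) (g := Polynomial.C c * Polynomial.X ^ 2 +
      Polynomial.C (-1))
    (by rw [Polynomial.degree_C_mul_X_pow 2 ha]; rfl)
    (by
      rw [Polynomial.degree_add_eq_left_of_degree_lt]
      · rw [Polynomial.degree_C_mul_X_pow 2 hc]; rfl
      · rw [Polynomial.degree_C_mul_X_pow 2 hc]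
        refine lt_of_le_of_lt Polynomial.degree_C_le ?_
        norm_num) hodd
  refine ⟨s, t, ?_⟩
  simp at h
  linear_combination h

/-- a unimodular form of rank at least 2 represents 1 -/
theorem rep_one (hp : p ≠ 2) {n : ℕ} {B : Matrix (Fin (n + 2)) (Fin (n + 2)) ℤ_[p]} (hB : Sy B)
    (hdet : IsUnit B.det) : ∃ x, bm B x x = 1 := by
  obtain ⟨x, hx⟩ := exists_unit_norm hp hB hdet
  obtain ⟨B', hB'⟩ := split hB (n := n + 1) (by simp) x _ rfl hx
  obtain ⟨u, hu, hd⟩ := hB'.det_block (by simp)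
  have dB' : IsUnit B'.det := by
    rw [hd] at hdet
    exact isUnit_of_mul_isUnit_right (isUnit_of_mul_isUnit_left hdet)
  have sB' := sy_right (hB'.sy hB)
  obtain ⟨y, hy⟩ := exists_unit_norm hp sB' dB'
  obtain ⟨s, t, hst⟩ := rep_one_zmod hp _ _ ((unit_iff_zmod _).mp hx) ((unit_iff_zmod _).mp hy)
  obtain ⟨s', hs'⟩ := ZMod.ringHom_surjective (PadicInt.toZMod (p := p)) s
  obtain ⟨t', ht'⟩ := ZMod.ringHom_surjective (PadicInt.toZMod (p := p)) t
  obtain ⟨e, he⟩ := hB'.symm
  let v : Fin 1 ⊕ Fin (n + 1) → ℤ_[p] := Sum.elim (fun _ => s') (t' • y)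
  have hv : bm B (e v) (e v) = bm B x x * s' ^ 2 + bm B' y y * t' ^ 2 := by
    rw [he, bm_fromBlocks, bm_smul_left, bm_smul_right]
    congr 1
    · simp [bm, mulVec, dotProduct]; ring
    · ring
  have h1 : PadicInt.toZMod (bm B (e v) (e v)) = 1 := by
    rw [hv, map_add, map_mul, map_mul, map_pow, map_pow, hs', ht', hst]
  have hu1 : IsUnit (bm B (e v) (e v)) := (unit_iff_zmod _).mpr (by rw [h1]; exact one_ne_zero)
  obtain ⟨d, hd1⟩ := hu1.exists_right_inv
  have h2 : PadicInt.toZMod d = 1 := by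
    have := congrArg (PadicInt.toZMod (p := p)) hd1
    rw [map_mul, h1, one_mul, map_one] at this
    exact this
  obtain ⟨w, hw⟩ := sq_of_one hp d h2
  refine ⟨w • e v, ?_⟩
  rw [bm_smul_left, bm_smul_right]
  linear_combination hd1 + bm B (e v) (e v) * hw

theorem classOdd (hp : p ≠ 2) : ∀ (n : ℕ) (B C : Matrix (Fin n) (Fin n) ℤ_[p]), Sy B → Sy C →
    IsUnit B.det → IsUnit C.det → (∃ u : ℤ_[p], IsUnit u ∧ B.det = C.det * u ^ 2) →
    Cong B C := by
  intro n
  induction n with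
  | zero =>
    intro B C _ _ _ _ _
    have : B = C := Subsingleton.elim _ _
    rw [this]; exact Cong.refl C
  | succ n ih =>
    intro B C sB sC dB dC hu
    rcases n with _ | n
    · obtain ⟨u, hu, h⟩ := hu
      have d1 : ∀ D : Matrix (Fin 1) (Fin 1) ℤ_[p], D.det = D 0 0 := fun D => by
        rw [det_succ_row_zero]; simp
      rw [d1, d1] at h
      obtain ⟨w, hw⟩ := hu.exists_right_inv
      refine ⟨{ toFun := fun x => u • x
                map_add' := fun x y => smul_add _ _ _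
                map_smul' := fun c x => by rw [RingHom.id_apply, smul_comm]
                invFun := fun x => w • x
                left_inv := fun x => by
                  show w • u • x = x
                  rw [smul_smul, mul_comm w u, hw, one_smul]
                right_inv := fun x => by
                  show u • w • x = x
                  rw [smul_smul, hw, one_smul] }, fun x y => ?_⟩
      show bm C (u • x) (u • y) = bm B x y
      rw [bm_smul_left, bm_smul_right, bm_eq_sum, bm_eq_sum]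
      simp [h]
      ring
    · obtain ⟨x, hx⟩ := rep_one hp sB dB
      obtain ⟨y, hy⟩ := rep_one hp sC dC
      obtain ⟨B', h1⟩ := split sB (n := n + 1) (by simp) x _ hx isUnit_one
      obtain ⟨C', h2⟩ := split sC (n := n + 1) (by simp) y _ hy isUnit_one
      obtain ⟨u, hu, hBC⟩ := hu
      obtain ⟨u1, hu1, e1⟩ := h1.det_block (by simp)
      obtain ⟨u2, hu2, e2⟩ := h2.det_block (by simp)
      have dB' : IsUnit B'.det := by
        rw [e1] at dB
        exact isUnit_of_mul_isUnit_right (isUnit_of_mul_isUnit_left dB)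
      have dC' : IsUnit C'.det := by
        rw [e2] at dC
        exact isUnit_of_mul_isUnit_right (isUnit_of_mul_isUnit_left dC)
      have hcong : Cong B' C' := by
        refine ih B' C' (sy_right (h1.sy sB)) (sy_right (h2.sy sC)) dB' dC' ?_
        obtain ⟨v, hv⟩ := hu1.exists_right_inv
        refine ⟨u2 * u * v, (hu2.mul hu).mul (IsUnit.of_mul_eq_one u1 (by rw [mul_comm]; exact hv)),
          ?_⟩
        have e3 : B'.det * u1 ^ 2 = C'.det * (u2 * u) ^ 2 := by
          linear_combination hBC - e1 + u ^ 2 * e2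
        have e5 : (u1 * v) ^ 2 = 1 := by rw [hv, one_pow]
        linear_combination v ^ 2 * e3 - B'.det * e5
      exact h1.trans (((Cong.refl _).sum hcong).trans h2.symm)

end odd

section top

variable {R : Type*} [CommRing R] {ι κ : Type} [Fintype ι] [DecidableEq ι] [Fintype κ]
  [DecidableEq κ]

/-- the form over a ring -/
def toR (R : Type*) [CommRing R] (B : Matrix ι ι ℤ) : Matrix ι ι R := B.map (Int.cast : ℤ → R)

omit [DecidableEq ι] in
theorem bm_toR (B : Matrix ι ι ℤ) (x y : ι → R) : bm (toR R B) x y = bf B x y := by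
  rw [bm_eq_sum]
  rfl

theorem det_toR (B : Matrix ι ι ℤ) : (toR R B).det = (B.det : R) := by
  have := (Int.castRingHom R).map_det B
  rw [eq_comm]
  simpa [toR] using this

omit [DecidableEq ι] in
theorem sy_toR {B : Matrix ι ι ℤ} (h : B.IsSymm) : Sy (toR R B) := by
  intro x y
  rw [bm_toR, bm_toR, bf_comm h]

omit [DecidableEq ι] in
/-- reindexing with `Fin n` -/
theorem cong_fin (B : Matrix ι ι R) {n : ℕ} (hn : Fintype.card ι = n) :
    ∃ B' : Matrix (Fin n) (Fin n) R, Cong B B' := by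
  classical
  let σ : Fin n ≃ ι := (Fintype.equivFinOfCardEq hn).symm
  refine ⟨B.submatrix σ σ, LinearEquiv.funCongrLeft R R σ, fun x y => ?_⟩
  show bm (B.submatrix σ σ) (x ∘ σ) (y ∘ σ) = bm B x y
  simp only [bm, dotProduct, mulVec, submatrix_apply, Function.comp]
  rw [← Equiv.sum_comp σ]
  refine Finset.sum_congr rfl fun i _ => ?_
  congr 1
  rw [← Equiv.sum_comp σ]

end top

/-- job GenusOdd -/
theorem jobGenusOdd : JobGenusOdd := by
  intro p _ hp ι κ _ _ _ _ B C hcard hB hC dB dC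
  obtain ⟨B', cB⟩ := cong_fin (toR ℤ_[p] B) rfl
  obtain ⟨C', cC⟩ := cong_fin (toR ℤ_[p] C) hcard.symm
  obtain ⟨u, hu, e1⟩ := cB.det (by simp)
  obtain ⟨v, hv, e2⟩ := cC.det (by simp [hcard])
  rw [det_toR, dB] at e1
  rw [det_toR, dC] at e2
  have h4 : IsUnit (((4 : ℤ) : ℤ_[p])) := by
    have := (unit_two (p := p) hp).mul (unit_two (p := p) hp)
    refine (congrArg IsUnit ?_).mp this
    push_cast
    norm_num
  have d1 : IsUnit B'.det := by
    rw [e1] at h4; exact isUnit_of_mul_isUnit_left h4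
  have d2 : IsUnit C'.det := by
    rw [e2] at h4; exact isUnit_of_mul_isUnit_left h4
  obtain ⟨w, hw⟩ := hu.exists_right_inv
  have hcong : Cong B' C' := by
    refine classOdd hp _ B' C' (cB.sy (sy_toR hB)) (cC.sy (sy_toR hC)) d1 d2
      ⟨v * w, hv.mul (IsUnit.of_mul_eq_one u (by rw [mul_comm]; exact hw)), ?_⟩
    have e5 : (u * w) ^ 2 = 1 := by rw [hw, one_pow]
    linear_combination w ^ 2 * e2 - w ^ 2 * e1 - B'.det * e5
  obtain ⟨e, he⟩ := cB.trans (hcong.trans cC.symm)
  refine ⟨e, fun x y => ?_⟩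
  rw [← bm_toR, ← bm_toR]
  exact he x y

/-- positive definite real forms of the same rank are isometric -/
theorem classReal : ∀ (n : ℕ) (B C : Matrix (Fin n) (Fin n) ℝ), Sy B → Sy C →
    (∀ x, x ≠ 0 → 0 < bm B x x) → (∀ x, x ≠ 0 → 0 < bm C x x) → Cong B C := by
  intro n
  induction n with
  | zero =>
    intro B C _ _ _ _
    have : B = C := Subsingleton.elim _ _
    rw [this]; exact Cong.refl C
  | succ n ih =>
    intro B C sB sC pB pC
    have rep : ∀ B : Matrix (Fin (n + 1)) (Fin (n + 1)) ℝ, Sy B → (∀ x, x ≠ 0 → 0 < bm B x x) →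
        ∃ B' : Matrix (Fin n) (Fin n) ℝ,
          Cong B (fromBlocks (Matrix.of fun (_ _ : Fin 1) => (1 : ℝ)) 0 0 B') ∧ Sy B' ∧
          ∀ x, x ≠ 0 → 0 < bm B' x x := by
      intro B sB pB
      have h1 : (Pi.single 0 1 : Fin (n + 1) → ℝ) ≠ 0 := by simp
      have h2 := pB _ h1
      set a := bm B (Pi.single 0 1) (Pi.single 0 1) with ha
      obtain ⟨B', hB'⟩ := split sB (n := n) (by simp) ((Real.sqrt a)⁻¹ • Pi.single 0 1) 1 (by
        rw [bm_smul_left, bm_smul_right, ← ha]
        have := Real.mul_self_sqrt h2.le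
        have h3 : Real.sqrt a ≠ 0 := (Real.sqrt_pos.mpr h2).ne'
        field_simp
        linear_combination -this) isUnit_one
      refine ⟨B', hB', sy_right (hB'.sy sB), fun x hx => ?_⟩
      obtain ⟨e, he⟩ := hB'.symm
      have h4 := he (Sum.elim 0 x) (Sum.elim 0 x)
      rw [bm_fromBlocks, bm_zero_left, zero_add] at h4
      rw [← h4]
      apply pB
      intro h5
      apply hx
      have h6 := e.map_eq_zero_iff.mp h5
      funext i
      have := congrFun h6 (Sum.inr i)
      simpa using this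
    obtain ⟨B', h1, s1, p1⟩ := rep B sB pB
    obtain ⟨C', h2, s2, p2⟩ := rep C sC pC
    exact h1.trans (((Cong.refl _).sum (ih B' C' s1 s2 p1 p2)).trans h2.symm)

/-- job GenusReal -/
theorem jobGenusReal : JobGenusReal := by
  intro ι κ _ _ _ _ B C hcard hB hC pB pC
  obtain ⟨B', cB⟩ := cong_fin (toR ℝ B) rfl
  obtain ⟨C', cC⟩ := cong_fin (toR ℝ C) hcard.symm
  have pos : ∀ {ι : Type} [Fintype ι] (B : Matrix ι ι ℤ) {n : ℕ} (B' : Matrix (Fin n) (Fin n) ℝ),
      (∀ x : ι → ℝ, x ≠ 0 → 0 < bf B x x) → Cong (toR ℝ B) B' → ∀ x, x ≠ 0 → 0 < bm B' x x := by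
    intro ι _ B n B' hp hc x hx
    obtain ⟨e, he⟩ := hc.symm
    rw [← he, bm_toR]
    exact hp _ (by rwa [Ne, e.map_eq_zero_iff])
  obtain ⟨e, he⟩ := cB.trans ((classReal _ B' C' (cB.sy (sy_toR hB)) (cC.sy (sy_toR hC))
    (pos B B' pB cB) (pos C C' pC cC)).trans cC.symm)
  refine ⟨e, fun x y => ?_⟩
  rw [← bm_toR, ← bm_toR]
  exact he x y

end Pool.Agent.U388.RL.Gen
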