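import Pool.Agent.U388.RL.Two2

set_option autoImplicit false

/-!
# Project RL (MP_f1d0b6_nt): job GenusTwo
-/

namespace Pool.Agent.U388.RL

open Pool.Agent.Y813.RL Pool.Agent.U398.RL Matrix

theorem cong_zero (B C : Matrix (Fin 0) (Fin 0) ℤ_[2]) : Cong B C := by
  have : B = C := Subsingleton.elim _ _
  rw [this]
  exact Cong.refl C

theorem det_U : (!![0, 1; 1, 0] : Matrix (Fin 2) (Fin 2) ℤ_[2]).det = -1 := by
  simp [det_fin_two]

theorem det_V : (!![2, 1; 1, 2] : Matrix (Fin 2) (Fin 2) ℤ_[2]).det = 3 := by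
  simp [det_fin_two]; norm_num

theorem isUnit_three : IsUnit (3 : ℤ_[2]) := by
  have := isUnit_odd (1 : ℤ_[2])
  have h2 : (2 : ℤ_[2]) * 1 + 1 = 3 := by norm_num
  rwa [h2] at this

/-- determinant of the second block -/
theorem Cong.det_block {ι : Type*} [Fintype ι] [DecidableEq ι] {B : Matrix ι ι ℤ_[2]} {n : ℕ}
    {P : Matrix (Fin 2) (Fin 2) ℤ_[2]} {B' : Matrix (Fin n) (Fin n) ℤ_[2]}
    (h : Cong B (fromBlocks P 0 0 B')) (hn : Fintype.card ι = n + 2) :
    ∃ u : ℤ_[2], IsUnit u ∧ B.det = P.det * B'.det * u ^ 2 := by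
  obtain ⟨u, hu, h⟩ := h.det (by simp [hn, add_comm])
  rw [det_fromBlocks_zero₂₁] at h
  exact ⟨u, hu, h⟩

/-- no unit square times 3 is minus a unit square -/
theorem no_U_V {u v : ℤ_[2]} (hu : IsUnit u) (hv : IsUnit v) : -u ^ 2 ≠ 3 * v ^ 2 := by
  intro h
  obtain ⟨k, hk⟩ := sq_unit hu
  obtain ⟨m, hm⟩ := sq_unit hv
  rw [hk, hm] at h
  have h1 : (4 : ℤ_[2]) * (2 * (-k - 3 * m)) = 4 * 1 := by linear_combination h
  have h2 := mul_left_cancel₀ (by norm_num : (4 : ℤ_[2]) ≠ 0) h1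
  exact two_not_unit (IsUnit.of_mul_eq_one _ h2)

/-- the classification of even unimodular lattices over the 2-adic integers -/
theorem classification : ∀ (n : ℕ) (B C : Matrix (Fin n) (Fin n) ℤ_[2]), Sy B → Sy C → Ev B →
    Ev C → IsUnit B.det → IsUnit C.det → (∃ u : ℤ_[2], IsUnit u ∧ B.det = C.det * u ^ 2) →
    Cong B C := by
  intro n
  induction n using Nat.strong_induction_on with
  | _ n ih =>
    intro B C sB sC eB eC dB dC hu
    rcases n with _ | _ | n
    · exact cong_zero B C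
    · exfalso
      have hdet : B.det = B 0 0 := by
        rw [det_succ_row_zero]
        simp
      rw [hdet] at dB
      have := eB (Pi.single 0 1)
      rw [bm_single] at this
      exact (isUnit_iff_not_dvd _).mp dB this
    · have key : ∀ (P : Matrix (Fin 2) (Fin 2) ℤ_[2]) (B' C' : Matrix (Fin n) (Fin n) ℤ_[2]),
          IsUnit P.det → Cong B (fromBlocks P 0 0 B') → Cong C (fromBlocks P 0 0 C') →
          Cong B C := by
        intro P B' C' hP h1 h2
        obtain ⟨u, hu, hBC⟩ := hu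
        obtain ⟨u1, hu1, e1⟩ := h1.det_block (by simp)
        obtain ⟨u2, hu2, e2⟩ := h2.det_block (by simp)
        have dB' : IsUnit B'.det := by
          rw [e1] at dB
          exact isUnit_of_mul_isUnit_right (isUnit_of_mul_isUnit_left dB)
        have dC' : IsUnit C'.det := by
          rw [e2] at dC
          exact isUnit_of_mul_isUnit_right (isUnit_of_mul_isUnit_left dC)
        have hcong : Cong B' C' := by
          refine ih n (by omega) B' C' (sy_right (h1.sy sB)) (sy_right (h2.sy sC))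
            (ev_right (h1.ev eB)) (ev_right (h2.ev eC)) dB' dC' ?_
          obtain ⟨v, hv⟩ := hu1.exists_right_inv
          refine ⟨u2 * u * v, (hu2.mul hu).mul (IsUnit.of_mul_eq_one u1 (by rw [mul_comm]; exact hv)),
            ?_⟩
          have e3 : P.det * (B'.det * u1 ^ 2) = P.det * (C'.det * (u2 * u) ^ 2) := by
            linear_combination hBC - e1 + u ^ 2 * e2
          have e4 := mul_left_cancel₀ hP.ne_zero e3
          have e5 : (u1 * v) ^ 2 = 1 := by rw [hv, one_pow]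
          linear_combination v ^ 2 * e4 - B'.det * e5
        exact h1.trans (((Cong.refl P).sum hcong).trans h2.symm)
      rcases step (n := n) sB eB dB (by simp) with ⟨B', hB'⟩ | ⟨h0, B', hB'⟩
      · rcases step (n := n) sC eC dC (by simp) with ⟨C', hC'⟩ | ⟨h0, C', hC'⟩
        · exact key _ B' C' (by rw [det_U]; exact isUnit_one.neg) hB' hC'
        · exfalso
          subst h0
          obtain ⟨u, hu, hBC⟩ := hu
          obtain ⟨u1, hu1, e1⟩ := hB'.det_block (by simp)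
          obtain ⟨u2, hu2, e2⟩ := hC'.det_block (by simp)
          rw [det_fin_zero, det_U] at e1
          rw [det_fin_zero, det_V] at e2
          refine no_U_V hu1 (hu2.mul hu) ?_
          linear_combination hBC - e1 + u ^ 2 * e2
      · rcases step (n := n) sC eC dC (by simp) with ⟨C', hC'⟩ | ⟨-, C', hC'⟩
        · exfalso
          subst h0
          obtain ⟨u, hu, hBC⟩ := hu
          obtain ⟨u1, hu1, e1⟩ := hB'.det_block (by simp)
          obtain ⟨u2, hu2, e2⟩ := hC'.det_block (by simp)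
          rw [det_fin_zero, det_V] at e1
          rw [det_fin_zero, det_U] at e2
          refine no_U_V (hu2.mul hu) hu1 ?_
          linear_combination -hBC + e1 - u ^ 2 * e2
        · exact key _ B' C' (by rw [det_V]; exact isUnit_three) hB' hC'

/-- a binary even form with odd data is `(2 1; 1 2)` -/
theorem bin_V (k l m : ℤ_[2]) :
    Cong !![2 * (2 * k + 1), 2 * m + 1; 2 * m + 1, 2 * (2 * l + 1)] !![2, 1; 1, 2] := by
  set P : Matrix (Fin 2) (Fin 2) ℤ_[2] :=
    !![2 * (2 * k + 1), 2 * m + 1; 2 * m + 1, 2 * (2 * l + 1)] with hP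
  have hexp : ∀ (Q : Matrix (Fin 2) (Fin 2) ℤ_[2]) (x y : Fin 2 → ℤ_[2]), bm Q x y =
      x 0 * Q 0 0 * y 0 + x 0 * Q 0 1 * y 1 + (x 1 * Q 1 0 * y 0 + x 1 * Q 1 1 * y 1) := by
    intro Q x y
    rw [bm_eq_sum]
    simp [Fin.sum_univ_two]
  have hsy : ∀ a b c : ℤ_[2], Sy !![2 * a, b; b, 2 * c] := by
    intro a b c x y
    rw [hexp, hexp]
    simp
    ring
  have hev : ∀ a b c : ℤ_[2], Ev !![2 * a, b; b, 2 * c] := by
    intro a b c x
    rw [hexp]
    simp
    exact ⟨a * x 0 ^ 2 + b * x 0 * x 1 + c * x 1 ^ 2, by ring⟩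
  have hdet : P.det = 8 * (2 * k * l + k + l) + 4 - (2 * m + 1) ^ 2 := by
    rw [hP, det_fin_two]
    simp
    ring
  obtain ⟨r, hr⟩ := sq_unit (isUnit_odd m)
  have hdet' : P.det = 8 * (2 * k * l + k + l - r) + 3 := by rw [hdet, hr]; ring
  have hPu : IsUnit P.det := by
    have := isUnit_odd (4 * (2 * k * l + k + l - r) + 1)
    have h2 : 2 * (4 * (2 * k * l + k + l - r) + 1) + 1 = 8 * (2 * k * l + k + l - r) + 3 := by ring
    rw [h2] at this
    rwa [hdet']
  have hfin : ∀ (Q Q' : Matrix (Fin 2) (Fin 2) ℤ_[2]) (B' : Matrix (Fin 0) (Fin 0) ℤ_[2]),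
      Cong Q (fromBlocks Q' 0 0 B') → Cong Q Q' := by
    intro Q Q' B' h
    refine h.trans ?_
    refine ⟨(LinearEquiv.sumArrowLequivProdArrow (Fin 2) (Fin 0) ℤ_[2] ℤ_[2]).trans
      (LinearEquiv.prodUnique), ?_⟩
    intro x y
    conv_rhs => rw [← Sum.elim_comp_inl_inr x, ← Sum.elim_comp_inl_inr y]
    rw [bm_fromBlocks]
    have : bm B' (x ∘ Sum.inr) (y ∘ Sum.inr) = 0 := by simp [bm, dotProduct]
    rw [this, add_zero]
    rfl
  rcases step (n := 0) (hsy _ _ _) (hev _ _ _) hPu (by simp) with ⟨B', hB'⟩ | ⟨-, B', hB'⟩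
  · exfalso
    obtain ⟨u, hu, e⟩ := hB'.det_block (by simp)
    rw [det_fin_zero, det_U] at e
    obtain ⟨s, hs⟩ := sq_unit hu
    change P.det = _ at e
    rw [hs, hdet'] at e
    have h1 : (4 : ℤ_[2]) * (2 * (-(2 * k * l + k + l - r) - s)) = 4 * 1 := by
      linear_combination -e
    have h2 := mul_left_cancel₀ (by norm_num : (4 : ℤ_[2]) ≠ 0) h1
    exact two_not_unit (IsUnit.of_mul_eq_one _ h2)
  · exact hfin _ _ B' hB'

section top

variable {ι : Type} [Fintype ι] [DecidableEq ι]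

/-- the form over the 2-adic integers -/
noncomputable def toTwo (B : Matrix ι ι ℤ) : Matrix ι ι ℤ_[2] := B.map (Int.cast : ℤ → ℤ_[2])

omit [DecidableEq ι] in
theorem bm_toTwo (B : Matrix ι ι ℤ) (x y : ι → ℤ_[2]) : bm (toTwo B) x y = bf B x y := by
  rw [bm_eq_sum]
  rfl

theorem det_toTwo (B : Matrix ι ι ℤ) : (toTwo B).det = (B.det : ℤ_[2]) := by
  have := (Int.castRingHom ℤ_[2]).map_det B
  rw [eq_comm]
  simpa [toTwo] using this

theorem sy_toTwo {B : Matrix ι ι ℤ} (h : B.IsSymm) : Sy (toTwo B) := by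
  intro x y
  rw [bm_toTwo, bm_toTwo, bf_comm h]

theorem ev_toTwo {B : Matrix ι ι ℤ} (h : B.IsSymm) (he : ∀ i, Even (B i i)) : Ev (toTwo B) := by
  intro x
  have hsy := sy_toTwo h
  have hx : x = ∑ i, x i • (Pi.single i 1 : ι → ℤ_[2]) := by
    funext j
    simp [Finset.sum_apply, Pi.single_apply]
  rw [hx]
  refine Finset.sum_induction (fun i => x i • (Pi.single i 1 : ι → ℤ_[2]))
    (fun v => (2 : ℤ_[2]) ∣ bm (toTwo B) v v) ?_ ?_ ?_
  · rintro v w ⟨a, ha⟩ ⟨b, hb⟩
    exact ⟨a + b + bm (toTwo B) v w, by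
      rw [bm_add_left, bm_add_right, bm_add_right, ha, hb, hsy w v]; ring⟩
  · rw [bm_zero_left]; exact dvd_zero _
  · intro i _
    rw [bm_smul_left, bm_smul_right, bm_single]
    obtain ⟨c, hc⟩ := he i
    refine ⟨x i * x i * c, ?_⟩
    simp only [toTwo, map_apply, hc]
    push_cast
    ring

/-- a lattice with `TwoData` is `2 V + N`, `N` even unimodular of rank 18 with a fixed
determinant up to squares -/
theorem two_split {B : Matrix ι ι ℤ} (hc : Fintype.card ι = 20) (h : TwoData B) :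
    ∃ B' : Matrix (Fin 18) (Fin 18) ℤ_[2],
      Cong (toTwo B) (fromBlocks ((2 : ℤ_[2]) • !![2, 1; 1, 2]) 0 0 B') ∧ Sy B' ∧ Ev B' ∧
      ∃ u : ℤ_[2], IsUnit u ∧ 3 * B'.det * u ^ 2 = 1 := by
  obtain ⟨hsymm, heven, hdet, x, y, k, l, m, hxx, hyy, hxy, hv⟩ := h
  choose a ha using fun j : ι => (hv (Pi.single j 1)).1
  choose b hb using fun j : ι => (hv (Pi.single j 1)).2
  have lin : ∀ a : ι → ℤ, ∃ α : (ι → ℤ_[2]) →ₗ[ℤ_[2]] ℤ_[2], ∀ v, α v = ∑ j, (a j : ℤ_[2]) * v j := by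
    intro a
    refine ⟨{ toFun := fun v => ∑ j, (a j : ℤ_[2]) * v j
              map_add' := fun v w => by simp [mul_add, Finset.sum_add_distrib]
              map_smul' := fun c v => by
                simp only [Pi.smul_apply, smul_eq_mul, RingHom.id_apply, Finset.mul_sum]
                exact Finset.sum_congr rfl fun j _ => by ring }, fun _ => rfl⟩
  obtain ⟨α, hα⟩ := lin a
  obtain ⟨β, hβ⟩ := lin b
  have gen : ∀ (z : ι → ℤ) (c : ι → ℤ), (∀ j, bf B z (Pi.single j 1) = 2 * c j) →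
      ∀ v : ι → ℤ_[2], bm (toTwo B) (fun i => (z i : ℤ_[2])) v = 2 * ∑ j, (c j : ℤ_[2]) * v j := by
    intro z c hz v
    rw [bm_toTwo, bf, Finset.sum_comm, Finset.mul_sum]
    refine Finset.sum_congr rfl fun j _ => ?_
    have h1 := congrArg (Int.cast : ℤ → ℤ_[2]) (hz j)
    rw [bf] at h1
    simp only [Pi.single_apply, mul_ite, mul_one, mul_zero, Finset.sum_ite_eq', Finset.mem_univ,
      if_true] at h1
    push_cast at h1
    rw [← mul_assoc, ← h1, Finset.sum_mul]
  have hα' : ∀ v, bm (toTwo B) (fun i => (x i : ℤ_[2])) v = 2 * α v := fun v => by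
    rw [hα]; exact gen x a ha v
  have hβ' : ∀ v, bm (toTwo B) (fun i => (y i : ℤ_[2])) v = 2 * β v := fun v => by
    rw [hβ]; exact gen y b hb v
  have cast : ∀ z w : ι → ℤ, bm (toTwo B) (fun i => (z i : ℤ_[2])) (fun i => (w i : ℤ_[2])) =
      ((bf B z w : ℤ) : ℤ_[2]) := by
    intro z w
    rw [bm_toTwo]
    exact bf_intCast B z w
  have h2 : (2 : ℤ_[2]) ≠ 0 := two_ne_zero
  have e1 : α (fun i => (x i : ℤ_[2])) = 2 * (2 * (k : ℤ_[2]) + 1) := by
    refine mul_left_cancel₀ h2 ?_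
    rw [← hα', cast, hxx]
    push_cast; ring
  have e2 : α (fun i => (y i : ℤ_[2])) = 2 * (m : ℤ_[2]) + 1 := by
    refine mul_left_cancel₀ h2 ?_
    rw [← hα', cast, hxy]
    push_cast; rfl
  have e3 : β (fun i => (x i : ℤ_[2])) = 2 * (m : ℤ_[2]) + 1 := by
    refine mul_left_cancel₀ h2 ?_
    rw [← hβ', cast, bf_comm hsymm, hxy]
    push_cast; rfl
  have e4 : β (fun i => (y i : ℤ_[2])) = 2 * (2 * (l : ℤ_[2]) + 1) := by
    refine mul_left_cancel₀ h2 ?_
    rw [← hβ', cast, hyy]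
    push_cast; ring
  have hD : IsUnit (2 * (2 * (k : ℤ_[2]) + 1) * (2 * (2 * (l : ℤ_[2]) + 1)) -
      (2 * (m : ℤ_[2]) + 1) * (2 * (m : ℤ_[2]) + 1)) := by
    have := (isUnit_odd (-(2 * (2 * k + 1) * (2 * l + 1)) + 2 * m ^ 2 + 2 * m : ℤ_[2])).neg
    refine (congrArg IsUnit ?_).mp this
    ring
  obtain ⟨B', hB'⟩ := split (sy_toTwo hsymm) hc _ _ α β 2 _ _ _ hα' hβ' e1 e2 e3 e4 hD
  have hC : Cong (toTwo B) (fromBlocks ((2 : ℤ_[2]) • !![2, 1; 1, 2]) 0 0 B') :=
    hB'.trans (((bin_V k l m).smul 2).sum (Cong.refl B'))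
  refine ⟨B', hC, sy_right (hC.sy (sy_toTwo hsymm)), ev_right (hC.ev (ev_toTwo hsymm heven)), ?_⟩
  obtain ⟨u, hu, e⟩ := hC.det_block hc
  refine ⟨u, hu, ?_⟩
  rw [det_toTwo, hdet, det_smul, det_V] at e
  have h4 : (4 : ℤ_[2]) ≠ 0 := by norm_num
  refine mul_left_cancel₀ h4 ?_
  push_cast at e
  rw [Fintype.card_fin] at e
  linear_combination -e

end top

/-- job GenusTwo -/
theorem jobGenusTwo : JobGenusTwo := by
  intro ι κ _ _ _ _ B C hι hκ hB hC
  obtain ⟨B', cB, sB, eB, u, hu, e1⟩ := two_split hι hB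
  obtain ⟨C', cC, sC, eC, v, hv, e2⟩ := two_split hκ hC
  have dB : IsUnit B'.det := IsUnit.of_mul_eq_one (3 * u ^ 2) (by linear_combination e1)
  have dC : IsUnit C'.det := IsUnit.of_mul_eq_one (3 * v ^ 2) (by linear_combination e2)
  obtain ⟨w, hw⟩ := hu.exists_right_inv
  have hcong : Cong B' C' := by
    refine classification 18 B' C' sB sC eB eC dB dC ⟨v * w, hv.mul
      (IsUnit.of_mul_eq_one u (by rw [mul_comm]; exact hw)), ?_⟩
    have h3 : (3 : ℤ_[2]) ≠ 0 := isUnit_three.ne_zero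
    refine mul_left_cancel₀ h3 ?_
    have e5 : (u * w) ^ 2 = 1 := by rw [hw, one_pow]
    linear_combination w ^ 2 * e1 - w ^ 2 * e2 - 3 * B'.det * e5
  obtain ⟨e, he⟩ := cB.trans (((Cong.refl _).sum hcong).trans cC.symm)
  refine ⟨e, fun x y => ?_⟩
  rw [← bm_toTwo, ← bm_toTwo]
  exact he x y

end Pool.Agent.U388.RL
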