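import Pool.Agent.U398.RL.Stm2

set_option autoImplicit false

/-!
# Project RL (MP_f1d0b6_nt): job GenusTwo, part 1: 2-adic integers and forms given by matrices
-/

namespace Pool.Agent.U388.RL

open Pool.Agent.Y813.RL Pool.Agent.U398.RL Matrix

section arith

theorem isUnit_iff_not_dvd (x : ℤ_[2]) : IsUnit x ↔ ¬ (2 : ℤ_[2]) ∣ x := by
  rw [PadicInt.isUnit_iff]
  have h1 : ‖x‖ < 1 ↔ ((2 : ℕ) : ℤ_[2]) ∣ x := PadicInt.norm_lt_one_iff_dvd x
  have h2 := PadicInt.norm_le_one x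
  rw [Nat.cast_ofNat] at h1
  rw [← h1]
  constructor
  · intro h; rw [h]; exact lt_irrefl _
  · intro h; exact le_antisymm h2 (not_lt.mp h)

theorem two_dvd_or (x : ℤ_[2]) : (∃ k, x = 2 * k) ∨ ∃ k, x = 2 * k + 1 := by
  have h : PadicInt.toZMod x = 0 ∨ PadicInt.toZMod x = 1 := by
    generalize PadicInt.toZMod x = z
    revert z
    decide
  have hk : ∀ y : ℤ_[2], PadicInt.toZMod y = 0 → ∃ k, y = 2 * k := by
    intro y hy
    have : y ∈ RingHom.ker (PadicInt.toZMod (p := 2)) := hy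
    rw [PadicInt.ker_toZMod, PadicInt.maximalIdeal_eq_span_p, Ideal.mem_span_singleton] at this
    obtain ⟨k, hk⟩ := this
    exact ⟨k, by simpa using hk⟩
  rcases h with h | h
  · exact Or.inl (hk x h)
  · right
    obtain ⟨k, hk⟩ := hk (x - 1) (by rw [map_sub, h, map_one, sub_self])
    exact ⟨k, by rw [← hk]; ring⟩

theorem two_ne : (2 : ℤ_[2]) ≠ 0 := two_ne_zero

theorem two_not_unit : ¬ IsUnit (2 : ℤ_[2]) := by
  rw [isUnit_iff_not_dvd]; simp

theorem isUnit_odd (k : ℤ_[2]) : IsUnit (2 * k + 1) := by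
  rw [isUnit_iff_not_dvd]
  rintro ⟨c, hc⟩
  have : (1 : ℤ_[2]) = 2 * (c - k) := by linear_combination hc
  exact two_not_unit (IsUnit.of_mul_eq_one _ this.symm)

theorem odd_of_isUnit {x : ℤ_[2]} (h : IsUnit x) : ∃ k, x = 2 * k + 1 := by
  rcases two_dvd_or x with ⟨k, hk⟩ | h1
  · rw [isUnit_iff_not_dvd] at h
    exact absurd ⟨k, hk⟩ h
  · exact h1

/-- the square of a unit is 1 mod 8 -/
theorem sq_unit {x : ℤ_[2]} (h : IsUnit x) : ∃ k, x ^ 2 = 8 * k + 1 := by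
  obtain ⟨k, rfl⟩ := odd_of_isUnit h
  rcases two_dvd_or k with ⟨m, rfl⟩ | ⟨m, rfl⟩
  · exact ⟨2 * m ^ 2 + m, by ring⟩
  · exact ⟨2 * m ^ 2 + 3 * m + 1, by ring⟩

/-- Hensel: a quadratic equation with an even constant term and a unit linear coefficient. -/
theorem quad (A b c : ℤ_[2]) (hb : IsUnit b) (hc : (2 : ℤ_[2]) ∣ c) :
    ∃ t, A * t ^ 2 + b * t + c = 0 := by
  let F : Polynomial ℤ_[2] := Polynomial.C A * Polynomial.X ^ 2 + Polynomial.C b * Polynomial.X +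
    Polynomial.C c
  have h1 : ‖c‖ < 1 := by
    rw [PadicInt.norm_lt_one_iff_dvd]; simpa using hc
  have h2 : ‖b‖ = 1 := PadicInt.isUnit_iff.mp hb
  have h3 : F.derivative.aeval (0 : ℤ_[2]) = b := by
    simp [F]
  have h4 : F.aeval (0 : ℤ_[2]) = c := by
    simp [F]
  obtain ⟨z, hz, -⟩ := hensels_lemma (p := 2) (F := F) (a := (0 : ℤ_[2]))
    (by rw [h3, h4, h2]; simpa using h1)
  refine ⟨z, ?_⟩
  simpa [F] using hz

end arith

section form

variable {ι κ lam : Type*} [Fintype ι] [Fintype κ] [Fintype lam]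

/-- the bilinear form of a matrix -/
noncomputable def bm (B : Matrix ι ι ℤ_[2]) (x y : ι → ℤ_[2]) : ℤ_[2] := x ⬝ᵥ (B *ᵥ y)

variable (B : Matrix ι ι ℤ_[2])

theorem bm_add_left (x y z : ι → ℤ_[2]) : bm B (x + y) z = bm B x z + bm B y z := by
  simp [bm, add_dotProduct]

theorem bm_add_right (x y z : ι → ℤ_[2]) : bm B x (y + z) = bm B x y + bm B x z := by
  simp [bm, mulVec_add, dotProduct_add]

theorem bm_smul_left (c : ℤ_[2]) (x z : ι → ℤ_[2]) : bm B (c • x) z = c * bm B x z := by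
  simp [bm, smul_dotProduct]

theorem bm_smul_right (c : ℤ_[2]) (x z : ι → ℤ_[2]) : bm B x (c • z) = c * bm B x z := by
  simp [bm, mulVec_smul, dotProduct_smul]

theorem bm_sub_right (x y z : ι → ℤ_[2]) : bm B x (y - z) = bm B x y - bm B x z := by
  simp [bm, mulVec_sub, dotProduct_sub]

theorem bm_sub_left (x y z : ι → ℤ_[2]) : bm B (x - y) z = bm B x z - bm B y z := by
  simp [bm, sub_dotProduct]

theorem bm_zero_left (z : ι → ℤ_[2]) : bm B 0 z = 0 := by simp [bm]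

theorem bm_zero_right (z : ι → ℤ_[2]) : bm B z 0 = 0 := by simp [bm]

theorem bm_sum_left {α : Type*} (s : Finset α) (f : α → ι → ℤ_[2]) (z : ι → ℤ_[2]) :
    bm B (∑ i ∈ s, f i) z = ∑ i ∈ s, bm B (f i) z := by
  simp [bm, sum_dotProduct]

theorem bm_sum_right {α : Type*} (s : Finset α) (f : α → ι → ℤ_[2]) (z : ι → ℤ_[2]) :
    bm B z (∑ i ∈ s, f i) = ∑ i ∈ s, bm B z (f i) := by
  induction s using Finset.cons_induction with
  | empty => simp [bm]
  | cons a s ha ih => rw [Finset.sum_cons, Finset.sum_cons, bm_add_right, ih]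

theorem bm_single [DecidableEq ι] (i j : ι) : bm B (Pi.single i 1) (Pi.single j 1) = B i j := by
  simp [bm]

/-- symmetric -/
def Sy : Prop := ∀ x y, bm B x y = bm B y x

/-- even -/
def Ev : Prop := ∀ x, (2 : ℤ_[2]) ∣ bm B x x

/-- isometry of the lattices given by two matrices -/
def Cong (B : Matrix ι ι ℤ_[2]) (C : Matrix κ κ ℤ_[2]) : Prop :=
  ∃ e : (ι → ℤ_[2]) ≃ₗ[ℤ_[2]] (κ → ℤ_[2]), ∀ x y, bm C (e x) (e y) = bm B x y

theorem Cong.refl : Cong B B := ⟨LinearEquiv.refl _ _, fun _ _ => rfl⟩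

variable {B}

theorem Cong.symm {C : Matrix κ κ ℤ_[2]} (h : Cong B C) : Cong C B := by
  obtain ⟨e, he⟩ := h
  exact ⟨e.symm, fun x y => by rw [← he]; simp⟩

theorem Cong.trans {C : Matrix κ κ ℤ_[2]} {D : Matrix lam lam ℤ_[2]} (h : Cong B C)
    (h' : Cong C D) : Cong B D := by
  obtain ⟨e, he⟩ := h
  obtain ⟨f, hf⟩ := h'
  exact ⟨e.trans f, fun x y => by simp [he, hf]⟩

theorem bm_fromBlocks (B : Matrix ι ι ℤ_[2]) (C : Matrix κ κ ℤ_[2]) (x x' : ι → ℤ_[2])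
    (y y' : κ → ℤ_[2]) :
    bm (fromBlocks B 0 0 C) (Sum.elim x y) (Sum.elim x' y') = bm B x x' + bm C y y' := by
  simp [bm, fromBlocks_mulVec]

theorem Cong.smul {C : Matrix κ κ ℤ_[2]} (h : Cong B C) (c : ℤ_[2]) : Cong (c • B) (c • C) := by
  obtain ⟨e, he⟩ := h
  refine ⟨e, fun x y => ?_⟩
  have := he x y
  simp only [bm, smul_mulVec, dotProduct_smul] at this ⊢
  rw [this]

theorem Cong.sum {ι' κ' : Type*} [Fintype ι'] [Fintype κ'] {C : Matrix κ κ ℤ_[2]}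
    {B' : Matrix ι' ι' ℤ_[2]} {C' : Matrix κ' κ' ℤ_[2]} (h : Cong B C) (h' : Cong B' C') :
    Cong (fromBlocks B 0 0 B') (fromBlocks C 0 0 C') := by
  obtain ⟨e, he⟩ := h
  obtain ⟨f, hf⟩ := h'
  refine ⟨(LinearEquiv.sumArrowLequivProdArrow ι ι' ℤ_[2] ℤ_[2]).trans
    ((LinearEquiv.prodCongr e f).trans
      (LinearEquiv.sumArrowLequivProdArrow κ κ' ℤ_[2] ℤ_[2]).symm), fun x y => ?_⟩
  have hx : ∀ x : ι ⊕ ι' → ℤ_[2], ((LinearEquiv.sumArrowLequivProdArrow ι ι' ℤ_[2] ℤ_[2]).trans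
    ((LinearEquiv.prodCongr e f).trans
      (LinearEquiv.sumArrowLequivProdArrow κ κ' ℤ_[2] ℤ_[2]).symm)) x =
      Sum.elim (e (x ∘ Sum.inl)) (f (x ∘ Sum.inr)) := by
    intro x
    funext i
    rcases i with i | i
    · rfl
    · rfl
  rw [hx, hx, bm_fromBlocks, he, hf]
  conv_rhs => rw [← Sum.elim_comp_inl_inr x, ← Sum.elim_comp_inl_inr y]
  rw [bm_fromBlocks]

theorem Cong.sy {C : Matrix κ κ ℤ_[2]} (h : Cong B C) (hB : Sy B) : Sy C := by
  obtain ⟨e, he⟩ := h.symm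
  intro x y
  rw [← he, ← he, hB]

theorem Cong.ev {C : Matrix κ κ ℤ_[2]} (h : Cong B C) (hB : Ev B) : Ev C := by
  obtain ⟨e, he⟩ := h.symm
  intro x
  rw [← he]
  exact hB _

theorem sy_right {P : Matrix ι ι ℤ_[2]} {C : Matrix κ κ ℤ_[2]} (h : Sy (fromBlocks P 0 0 C)) :
    Sy C := by
  intro x y
  have := h (Sum.elim 0 x) (Sum.elim 0 y)
  rw [bm_fromBlocks, bm_fromBlocks] at this
  simpa [bm_zero_left] using this

theorem ev_right {P : Matrix ι ι ℤ_[2]} {C : Matrix κ κ ℤ_[2]} (h : Ev (fromBlocks P 0 0 C)) :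
    Ev C := by
  intro x
  have := h (Sum.elim 0 x)
  rw [bm_fromBlocks] at this
  simpa [bm_zero_left] using this

/-- determinants of isometric lattices -/
theorem Cong.det [DecidableEq ι] [DecidableEq κ] {C : Matrix κ κ ℤ_[2]} (h : Cong B C)
    (hc : Fintype.card ι = Fintype.card κ) : ∃ u : ℤ_[2], IsUnit u ∧ B.det = C.det * u ^ 2 := by
  obtain ⟨e, he⟩ := h
  let σ : ι ≃ κ := Fintype.equivOfCardEq hc
  let T : (ι → ℤ_[2]) ≃ₗ[ℤ_[2]] (ι → ℤ_[2]) := e.trans (LinearEquiv.funCongrLeft ℤ_[2] ℤ_[2] σ)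
  let M : Matrix ι ι ℤ_[2] := LinearMap.toMatrix' (T : (ι → ℤ_[2]) →ₗ[ℤ_[2]] (ι → ℤ_[2]))
  have hM : ∀ x, M *ᵥ x = (e x) ∘ σ := by
    intro x
    have : M *ᵥ x = (T : (ι → ℤ_[2]) →ₗ[ℤ_[2]] (ι → ℤ_[2])) x := by
      simp only [M]
      rw [LinearMap.toMatrix'_mulVec]
    rw [this]
    rfl
  have hsub : ∀ x y : κ → ℤ_[2], bm (C.submatrix σ σ) (x ∘ σ) (y ∘ σ) = bm C x y := by
    intro x y
    simp only [bm, dotProduct, mulVec, submatrix_apply, Function.comp]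
    rw [← Equiv.sum_comp σ]
    refine Finset.sum_congr rfl fun i _ => ?_
    congr 1
    rw [← Equiv.sum_comp σ]
  have key : Mᵀ * (C.submatrix σ σ) * M = B := by
    ext i j
    have h1 := he (Pi.single i 1) (Pi.single j 1)
    rw [bm_single, ← hsub, ← hM, ← hM] at h1
    rw [← h1]
    simp only [bm, mulVec_single_one]
    rw [Matrix.mul_apply, ]
    simp only [dotProduct, mulVec, Matrix.mul_apply, transpose_apply, col_apply, Finset.sum_mul,
      Finset.mul_sum]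
    rw [Finset.sum_comm]
    refine Finset.sum_congr rfl fun a _ => Finset.sum_congr rfl fun b _ => by ring
  refine ⟨M.det, ?_, ?_⟩
  · have h2 : IsUnit (LinearMap.det (T : (ι → ℤ_[2]) →ₗ[ℤ_[2]] (ι → ℤ_[2]))) :=
      LinearEquiv.isUnit_det' T
    rwa [← LinearMap.det_toMatrix'] at h2
  · rw [← key, det_mul, det_mul, det_transpose, det_submatrix_equiv_self]
    ring

end form

end Pool.Agent.U388.RL
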