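import Pool.Agent.U388.RL.Two1

set_option autoImplicit false

/-!
# Project RL (MP_f1d0b6_nt): job GenusTwo, part 2: splitting off a binary form
-/

namespace Pool.Agent.U388.RL

open Pool.Agent.Y813.RL Pool.Agent.U398.RL Matrix

section split

variable {ι : Type*} [Fintype ι]

theorem bm_eq_sum (C : Matrix ι ι ℤ_[2]) (x y : ι → ℤ_[2]) :
    bm C x y = ∑ i, ∑ j, x i * C i j * y j := by
  simp only [bm, dotProduct, mulVec, Finset.mul_sum, mul_assoc]

theorem bm_sum_smul (B : Matrix ι ι ℤ_[2]) {α : Type*} [Fintype α] (x y : α → ℤ_[2])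
    (v w : α → ι → ℤ_[2]) :
    bm B (∑ i, x i • v i) (∑ j, y j • w j) = ∑ i, ∑ j, x i * bm B (v i) (w j) * y j := by
  rw [bm_sum_left]
  refine Finset.sum_congr rfl fun i _ => ?_
  rw [bm_sum_right]
  refine Finset.sum_congr rfl fun j _ => ?_
  rw [bm_smul_left, bm_smul_right]
  ring

theorem lin_exists (B : Matrix ι ι ℤ_[2]) (x : ι → ℤ_[2]) :
    ∃ α : (ι → ℤ_[2]) →ₗ[ℤ_[2]] ℤ_[2], ∀ v, α v = bm B x v :=
  ⟨{ toFun := bm B x
     map_add' := fun v w => bm_add_right B x v w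
     map_smul' := fun c v => bm_smul_right B c x v }, fun _ => rfl⟩

/-- splitting off a binary lattice -/
theorem split {B : Matrix ι ι ℤ_[2]} (hB : Sy B) {n : ℕ} (hn : Fintype.card ι = n + 2)
    (e f : ι → ℤ_[2]) (α β : (ι → ℤ_[2]) →ₗ[ℤ_[2]] ℤ_[2]) (c p r s : ℤ_[2])
    (hα : ∀ v, bm B e v = c * α v) (hβ : ∀ v, bm B f v = c * β v)
    (h1 : α e = p) (h2 : α f = r) (h3 : β e = r) (h4 : β f = s) (hD : IsUnit (p * s - r * r)) :
    ∃ B' : Matrix (Fin n) (Fin n) ℤ_[2],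
      Cong B (fromBlocks (c • !![p, r; r, s]) 0 0 B') := by
  classical
  obtain ⟨d, hd⟩ := hD.exists_right_inv
  let φ : (ι → ℤ_[2]) →ₗ[ℤ_[2]] ℤ_[2] := d • (s • α - r • β)
  let ψ : (ι → ℤ_[2]) →ₗ[ℤ_[2]] ℤ_[2] := d • (p • β - r • α)
  have hφ : ∀ v, φ v = d * (s * α v - r * β v) := fun v => by simp [φ]
  have hψ : ∀ v, ψ v = d * (p * β v - r * α v) := fun v => by simp [ψ]
  have φe : φ e = 1 := by rw [hφ, h1, h3, ← hd]; ring
  have φf : φ f = 0 := by rw [hφ, h2, h4]; ring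
  have ψe : ψ e = 0 := by rw [hψ, h1, h3]; ring
  have ψf : ψ f = 1 := by rw [hψ, h2, h4, ← hd]; ring
  have hα' : ∀ v, α v = p * φ v + r * ψ v := by
    intro v
    rw [hφ, hψ]
    linear_combination (-(α v)) * hd
  have hβ' : ∀ v, β v = r * φ v + s * ψ v := by
    intro v
    rw [hφ, hψ]
    linear_combination (-(β v)) * hd
  let K : Submodule ℤ_[2] (ι → ℤ_[2]) := LinearMap.ker φ ⊓ LinearMap.ker ψ
  have hK : ∀ k : K, φ k = 0 ∧ ψ k = 0 := fun k => ⟨k.2.1, k.2.2⟩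
  let E : (ι → ℤ_[2]) ≃ₗ[ℤ_[2]] (Fin 2 → ℤ_[2]) × K :=
    { toFun := fun v => (![φ v, ψ v], ⟨v - φ v • e - ψ v • f, by
        refine ⟨?_, ?_⟩
        · show φ (v - φ v • e - ψ v • f) = 0
          simp only [map_sub, map_smul, φe, φf, smul_eq_mul]; ring
        · show ψ (v - φ v • e - ψ v • f) = 0
          simp only [map_sub, map_smul, ψe, ψf, smul_eq_mul]; ring⟩)
      map_add' := by
        intro v w
        refine Prod.ext ?_ (Subtype.ext ?_)
        · funext i; fin_cases i <;> simp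
        · simp only [map_add, add_smul, Prod.snd_add, Submodule.coe_add]; abel
      map_smul' := by
        intro a v
        refine Prod.ext ?_ (Subtype.ext ?_)
        · funext i; fin_cases i <;> simp
        · simp only [map_smul, smul_eq_mul, mul_smul, Prod.smul_snd, RingHom.id_apply,
            Submodule.coe_smul, smul_sub]
      invFun := fun w => w.1 0 • e + w.1 1 • f + (w.2 : ι → ℤ_[2])
      left_inv := by
        intro v
        simp
      right_inv := by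
        intro w
        refine Prod.ext ?_ (Subtype.ext ?_)
        · funext i
          fin_cases i
          · simp [φe, φf, (hK w.2).1]
          · simp [ψe, ψf, (hK w.2).2]
        · simp only [map_add, map_smul, φe, φf, (hK w.2).1, ψe, ψf, (hK w.2).2, smul_eq_mul]
          simp only [mul_one, mul_zero, add_zero, zero_add]
          abel }
  have hrank : Module.finrank ℤ_[2] K = n := by
    have h := E.finrank_eq
    rw [Module.finrank_prod, Module.finrank_fintype_fun_eq_card,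
      Module.finrank_fintype_fun_eq_card, hn, Fintype.card_fin] at h
    omega
  let bK : Module.Basis (Fin n) ℤ_[2] K := Module.finBasisOfFinrankEq ℤ_[2] K hrank
  let B' : Matrix (Fin n) (Fin n) ℤ_[2] := Matrix.of fun i j => bm B (bK i) (bK j)
  have hsum : ∀ k : K, (k : ι → ℤ_[2]) = ∑ i, bK.repr k i • ((bK i : K) : ι → ℤ_[2]) := by
    intro k
    have := congrArg K.subtype (bK.sum_repr k)
    rw [map_sum] at this
    simpa using this.symm
  have hB' : ∀ k k' : K, bm B' (bK.repr k) (bK.repr k') = bm B k k' := by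
    intro k k'
    rw [hsum k, hsum k', bm_sum_smul, bm_eq_sum]
    rfl
  let F : (ι → ℤ_[2]) ≃ₗ[ℤ_[2]] (Fin 2 ⊕ Fin n → ℤ_[2]) :=
    E.trans ((LinearEquiv.prodCongr (LinearEquiv.refl ℤ_[2] (Fin 2 → ℤ_[2])) bK.equivFun).trans
      (LinearEquiv.sumArrowLequivProdArrow (Fin 2) (Fin n) ℤ_[2] ℤ_[2]).symm)
  have hF : ∀ v, F v = Sum.elim ![φ v, ψ v] (bK.repr (E v).2) := by
    intro v
    funext i
    rcases i with i | i <;> rfl
  refine ⟨B', F, fun x y => ?_⟩
  rw [hF, hF, bm_fromBlocks, hB']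
  have ex : x = φ x • e + ψ x • f + ((E x).2 : ι → ℤ_[2]) := by
    have : ((E x).2 : ι → ℤ_[2]) = x - φ x • e - ψ x • f := rfl
    rw [this]; abel
  have ey : y = φ y • e + ψ y • f + ((E y).2 : ι → ℤ_[2]) := by
    have : ((E y).2 : ι → ℤ_[2]) = y - φ y • e - ψ y • f := rfl
    rw [this]; abel
  have k1 : ∀ k : K, bm B e k = 0 := fun k => by
    rw [hα, hα', (hK k).1, (hK k).2]; ring
  have k2 : ∀ k : K, bm B f k = 0 := fun k => by
    rw [hβ, hβ', (hK k).1, (hK k).2]; ring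
  have k3 : ∀ k : K, bm B k e = 0 := fun k => by rw [hB, k1]
  have k4 : ∀ k : K, bm B k f = 0 := fun k => by rw [hB, k2]
  have e1 : bm B e e = c * p := by rw [hα, h1]
  have e2 : bm B e f = c * r := by rw [hα, h2]
  have e3 : bm B f e = c * r := by rw [hβ, h3]
  have e4 : bm B f f = c * s := by rw [hβ, h4]
  conv_rhs => rw [ex, ey]
  simp only [bm_add_left, bm_add_right, bm_smul_left, bm_smul_right, k1, k2, k3, k4, e1, e2, e3, e4]
  simp only [bm, smul_mulVec, dotProduct_smul, smul_eq_mul]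
  simp [Matrix.mulVec, dotProduct, Fin.sum_univ_two]
  ring

/-- splitting off the plane spanned by two vectors with unimodular Gram matrix -/
theorem split_one {B : Matrix ι ι ℤ_[2]} (hB : Sy B) {n : ℕ} (hn : Fintype.card ι = n + 2)
    (e f : ι → ℤ_[2]) (p r s : ℤ_[2]) (h1 : bm B e e = p) (h2 : bm B e f = r) (h4 : bm B f f = s)
    (hD : IsUnit (p * s - r * r)) :
    ∃ B' : Matrix (Fin n) (Fin n) ℤ_[2], Cong B (fromBlocks !![p, r; r, s] 0 0 B') := by
  obtain ⟨α, hα⟩ := lin_exists B e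
  obtain ⟨β, hβ⟩ := lin_exists B f
  have := split hB hn e f α β 1 p r s (fun v => by rw [hα, one_mul]) (fun v => by rw [hβ, one_mul])
    (by rw [hα, h1]) (by rw [hα, h2]) (by rw [hβ, hB, h2]) (by rw [hβ, h4]) hD
  rwa [one_smul] at this

/-- a primitive vector with norm divisible by 4 gives a hyperbolic plane -/
theorem splitU {B : Matrix ι ι ℤ_[2]} (hB : Sy B) (hE : Ev B) {n : ℕ}
    (hn : Fintype.card ι = n + 2) (x y : ι → ℤ_[2]) (hxy : bm B x y = 1)
    (hxx : (4 : ℤ_[2]) ∣ bm B x x) :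
    ∃ B' : Matrix (Fin n) (Fin n) ℤ_[2], Cong B (fromBlocks !![0, 1; 1, 0] 0 0 B') := by
  obtain ⟨a, ha⟩ := hxx
  obtain ⟨c, hc⟩ := hE y
  obtain ⟨t, ht⟩ := quad c 1 (2 * a) isUnit_one (dvd_mul_right 2 a)
  have hyx : bm B y x = 1 := by rw [hB, hxy]
  set x' := x + t • y with hx'
  have e1 : bm B x' x' = 0 := by
    rw [hx']
    simp only [bm_add_left, bm_add_right, bm_smul_left, bm_smul_right, ha, hc, hxy, hyx]
    linear_combination 2 * ht
  have e2 : bm B x' y = 2 * (t * c) + 1 := by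
    rw [hx']
    simp only [bm_add_left, bm_smul_left, hc, hxy]
    ring
  obtain ⟨w, hw⟩ := (isUnit_odd (t * c)).exists_right_inv
  set y1 := w • y with hy1
  have e3 : bm B x' y1 = 1 := by rw [hy1, bm_smul_right, e2, mul_comm]; exact hw
  obtain ⟨g, hg⟩ := hE y1
  set y2 := y1 - g • x' with hy2
  have e4 : bm B x' y2 = 1 := by
    rw [hy2, bm_sub_right, bm_smul_right B g x' x', e1, e3]; ring
  have e5 : bm B y2 y2 = 0 := by
    rw [hy2]
    simp only [bm_sub_left, bm_sub_right, bm_smul_left, bm_smul_right, hg, e1, e3, hB y1 x']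
    ring
  exact split_one hB hn x' y2 0 1 0 e1 e4 e5 (by simp)

/-- if there is no such vector then the plane `(2 1; 1 2)` splits -/
theorem splitV {B : Matrix ι ι ℤ_[2]} (hB : Sy B) (hE : Ev B) {n : ℕ}
    (hn : Fintype.card ι = n + 2) (x y : ι → ℤ_[2]) (hxy : bm B x y = 1)
    (hno : ¬ ∃ x y : ι → ℤ_[2], bm B x y = 1 ∧ (4 : ℤ_[2]) ∣ bm B x x) :
    ∃ B' : Matrix (Fin n) (Fin n) ℤ_[2], Cong B (fromBlocks !![2, 1; 1, 2] 0 0 B') := by
  have odd : ∀ x y : ι → ℤ_[2], bm B x y = 1 → ∃ k, bm B x x = 2 * (2 * k + 1) := by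
    intro x y h
    obtain ⟨a, ha⟩ := hE x
    rcases two_dvd_or a with ⟨k, rfl⟩ | ⟨k, rfl⟩
    · exact absurd ⟨x, y, h, k, by rw [ha]; ring⟩ hno
    · exact ⟨k, ha⟩
  obtain ⟨a, ha⟩ := odd x y hxy
  obtain ⟨c, hc⟩ := hE y
  obtain ⟨t, ht⟩ := quad c 1 (2 * a) isUnit_one (dvd_mul_right 2 a)
  have hyx : bm B y x = 1 := by rw [hB, hxy]
  set x' := x + t • y with hx'
  have e1 : bm B x' x' = 2 := by
    rw [hx']
    simp only [bm_add_left, bm_add_right, bm_smul_left, bm_smul_right, ha, hc, hxy, hyx]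
    linear_combination 2 * ht
  have e2 : bm B x' y = 2 * (t * c) + 1 := by
    rw [hx']
    simp only [bm_add_left, bm_smul_left, hc, hxy]
    ring
  obtain ⟨w, hw⟩ := (isUnit_odd (t * c)).exists_right_inv
  set y1 := w • y with hy1
  have e3 : bm B x' y1 = 1 := by rw [hy1, bm_smul_right, e2, mul_comm]; exact hw
  have e3' : bm B y1 x' = 1 := by rw [hB, e3]
  obtain ⟨g, hg⟩ := odd y1 x' e3'
  obtain ⟨s, hs⟩ := quad (8 * g + 3) (-(8 * g + 3)) (2 * g)
    (by
      rw [IsUnit.neg_iff]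
      have := isUnit_odd (4 * g + 1)
      have h2 : 2 * (4 * g + 1) + 1 = 8 * g + 3 := by ring
      rwa [h2] at this) (dvd_mul_right 2 g)
  set y2 := y1 + s • (x' - (2 : ℤ_[2]) • y1) with hy2
  have e4 : bm B x' y2 = 1 := by
    rw [hy2]
    simp only [bm_add_right, bm_smul_right, bm_sub_right, e1, e3]
    ring
  have e5 : bm B y2 y2 = 2 := by
    rw [hy2]
    simp only [bm_sub_left, bm_sub_right, bm_add_left, bm_add_right, bm_smul_left, bm_smul_right,
      hg, e1, e3, e3']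
    linear_combination 2 * hs
  refine split_one hB hn x' y2 2 1 2 e1 e4 e5 ?_
  have := isUnit_odd (1 : ℤ_[2])
  have h2 : (2 : ℤ_[2]) * 2 - 1 * 1 = 2 * 1 + 1 := by ring
  rwa [h2]

variable [DecidableEq ι]

/-- in rank at least 3 there is a primitive vector with norm divisible by 4 -/
theorem exists_iso {B : Matrix ι ι ℤ_[2]} (hB : Sy B) (hE : Ev B) (hdet : IsUnit B.det)
    (hn : 3 ≤ Fintype.card ι) : ∃ x y : ι → ℤ_[2], bm B x y = 1 ∧ (4 : ℤ_[2]) ∣ bm B x x := by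
  have hy : ∀ (x : ι → ℤ_[2]) (i : ι), x i = 1 → ∃ y, bm B x y = 1 := by
    intro x i hi
    refine ⟨B⁻¹ *ᵥ Pi.single i 1, ?_⟩
    rw [bm, mulVec_mulVec, mul_nonsing_inv B hdet, one_mulVec]
    simp [hi]
  have hfin : ∀ (x : ι → ℤ_[2]) (i : ι), x i = 1 → (4 : ℤ_[2]) ∣ bm B x x →
      ∃ x y : ι → ℤ_[2], bm B x y = 1 ∧ (4 : ℤ_[2]) ∣ bm B x x := by
    intro x i h1 h2
    obtain ⟨y, hy⟩ := hy x i h1
    exact ⟨x, y, hy, h2⟩
  obtain ⟨i, j, k, hij, hik, hjk⟩ : ∃ i j k : ι, i ≠ j ∧ i ≠ k ∧ j ≠ k := by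
    have := Fintype.two_lt_card_iff.mp (show 2 < Fintype.card ι by omega)
    obtain ⟨a, b, c, h1, h2, h3⟩ := this
    exact ⟨a, b, c, h1, h2, h3⟩
  have hd : ∀ i, (4 : ℤ_[2]) ∣ B i i ∨ ∃ k, B i i = 2 * (2 * k + 1) := by
    intro i
    obtain ⟨a, ha⟩ := hE (Pi.single i 1)
    rw [bm_single] at ha
    rcases two_dvd_or a with ⟨m, rfl⟩ | ⟨m, rfl⟩
    · left; exact ⟨m, by rw [ha]; ring⟩
    · right; exact ⟨m, ha⟩
  have hs : ∀ i j, B i j = B j i := by
    intro i j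
    have := hB (Pi.single i 1) (Pi.single j 1)
    rwa [bm_single, bm_single] at this
  have two : ∀ i j : ι, i ≠ j → (4 : ℤ_[2]) ∣ B i i + B j j + 2 * B i j →
      ∃ x y : ι → ℤ_[2], bm B x y = 1 ∧ (4 : ℤ_[2]) ∣ bm B x x := by
    intro i j hij h
    refine hfin (Pi.single i 1 + Pi.single j 1) i (by simp [hij]) ?_
    simp only [bm_add_left, bm_add_right, bm_single]
    convert h using 1
    rw [hs j i]; ring
  rcases hd i with h | ⟨a, ha⟩
  · exact hfin (Pi.single i 1) i (by simp) (by rwa [bm_single])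
  rcases hd j with h | ⟨b, hb⟩
  · exact hfin (Pi.single j 1) j (by simp) (by rwa [bm_single])
  rcases hd k with h | ⟨c, hc⟩
  · exact hfin (Pi.single k 1) k (by simp) (by rwa [bm_single])
  rcases two_dvd_or (B i j) with ⟨m, hm⟩ | ⟨m, hm⟩
  · exact two i j hij ⟨a + b + 1 + m, by rw [ha, hb, hm]; ring⟩
  rcases two_dvd_or (B i k) with ⟨m', hm'⟩ | ⟨m', hm'⟩
  · exact two i k hik ⟨a + c + 1 + m', by rw [ha, hc, hm']; ring⟩
  rcases two_dvd_or (B j k) with ⟨m'', hm''⟩ | ⟨m'', hm''⟩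
  · exact two j k hjk ⟨b + c + 1 + m'', by rw [hb, hc, hm'']; ring⟩
  refine hfin (Pi.single i 1 + Pi.single j 1 + Pi.single k 1) i (by simp [hij, hik]) ?_
  simp only [bm_add_left, bm_add_right, bm_single, hs j i, hs k i, hs k j, ha, hb, hc, hm, hm',
    hm'']
  exact ⟨a + b + c + m + m' + m'' + 3, by ring⟩

/-- the decomposition step -/
theorem step {B : Matrix ι ι ℤ_[2]} (hB : Sy B) (hE : Ev B) (hdet : IsUnit B.det) {n : ℕ}
    (hn : Fintype.card ι = n + 2) :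
    (∃ B' : Matrix (Fin n) (Fin n) ℤ_[2], Cong B (fromBlocks !![0, 1; 1, 0] 0 0 B')) ∨
    (n = 0 ∧ ∃ B' : Matrix (Fin n) (Fin n) ℤ_[2], Cong B (fromBlocks !![2, 1; 1, 2] 0 0 B')) := by
  by_cases h : ∃ x y : ι → ℤ_[2], bm B x y = 1 ∧ (4 : ℤ_[2]) ∣ bm B x x
  · obtain ⟨x, y, hxy, hxx⟩ := h
    exact Or.inl (splitU hB hE hn x y hxy hxx)
  · right
    have hn0 : n = 0 := by
      by_contra hne
      exact h (exists_iso hB hE hdet (by omega))
    refine ⟨hn0, ?_⟩
    have hpos : 0 < Fintype.card ι := by omega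
    obtain ⟨i⟩ := Fintype.card_pos_iff.mp hpos
    refine splitV hB hE hn (Pi.single i 1) (B⁻¹ *ᵥ Pi.single i 1) ?_ h
    rw [bm, mulVec_mulVec, mul_nonsing_inv B hdet, one_mulVec]
    simp

end split

end Pool.Agent.U388.RL
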